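import Pool.Agent.Helper31.MHS.Goals2

/-!
# Project MHS, packet EVW: for large `n` the codes work
-/

namespace Pool.Agent.Helper74.MHS

open Pool.Agent.Helper65.LinSpace Pool.Agent.Helper78.Mpc Pool.Agent.Helper28.Ram Finset Filter
open Pool.Agent.Helper28.Long (ZL)
open Pool.Agent.Helper31.MHS

theorem evw : EVW_stmt := by
  intro c0
  filter_upwards [Pool.Agent.Helper28.Long.ev_par (2 * c0), eventually_ge_atTop (c0 + 20)]
    with n hn hn2 S hS
  obtain ⟨h1, h2, -⟩ := hn 0 (Nat.succ_pos _) S hS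
  have hl2 := lt_two_pow_ll n
  have h7 : (n + 1) * (n + 1) ≤ 2 ^ (2 * ll n) := by
    rw [two_mul, pow_add]
    exact Nat.mul_le_mul hl2 hl2
  have h9 : LW n ≤ n := Nat.div_le_self _ _
  have hZ := Pool.Agent.Helper28.Long.ZL_le n
  have h5 : c0 * (8 * S + 8) ≤ LW n := by
    have h6 : 2 * c0 * (4 * 0 + 4 * S + 4) = c0 * (8 * S + 8) := by ring
    omega
  have h4 : c0 * (S + 1) ≤ LW n := by
    refine le_trans (Nat.mul_le_mul_left _ ?_) h5
    omega
  refine ⟨h4, ?_, h5, ?_, fun x hx => Pool.Agent.Helper28.Long.pow_le_CR ?_⟩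
  · refine le_trans ?_ h7
    nlinarith
  · refine le_trans ?_ h7
    nlinarith
  · rw [hx]
    omega

end Pool.Agent.Helper74.MHS
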